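import Mathlib

set_option autoImplicit false

namespace Pool.Agent.Lib.MP_7eef47_al.GP

/-- The graph product: the free product of the vertex groups modulo the commutators of elements of
adjacent vertex groups. -/
abbrev GraphProduct {V : Type} (Γ : SimpleGraph V) (A : V → Type) [∀ v, Group (A v)] : Type :=
  Monoid.CoprodI A ⧸ Subgroup.normalClosure {x : Monoid.CoprodI A | ∃ u v, Γ.Adj u v ∧
    ∃ (a : A u) (b : A v), x = Monoid.CoprodI.of a * Monoid.CoprodI.of b *
      (Monoid.CoprodI.of a)⁻¹ * (Monoid.CoprodI.of b)⁻¹}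

end Pool.Agent.Lib.MP_7eef47_al.GP
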