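import Pool.Agent.Lib.MP_7eef47_al.GP.Defs
import Pool.Agent.Lib.MP_7eef47_al.U.Geo

set_option autoImplicit false
set_option linter.unusedSectionVars false

namespace Pool.Agent.Lib.MP_7eef47_al.GP

open Pool.Agent.Lib.MP_b03b3a_al Pool.Agent.Lib.MP_7eef47_al.U Classical

variable {V : Type} (Γ : SimpleGraph V) (A : V → Type) [∀ v, Group (A v)]

/-- The vertex groups inside the graph product. -/
def inc (v : V) : A v →* GraphProduct Γ A := (QuotientGroup.mk' _).comp Monoid.CoprodI.of

variable {Γ A}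

theorem inc_comm {u v : V} (h : Γ.Adj u v) (a : A u) (b : A v) :
    inc Γ A u a * inc Γ A v b = inc Γ A v b * inc Γ A u a := by
  have : inc Γ A u a * inc Γ A v b * (inc Γ A u a)⁻¹ * (inc Γ A v b)⁻¹ = 1 := by
    simp only [inc, MonoidHom.comp_apply, ← map_inv, ← map_mul]
    exact (QuotientGroup.eq_one_iff _).2 (Subgroup.subset_normalClosure ⟨u, v, h, a, b, rfl⟩)
  rw [mul_inv_eq_one, mul_inv_eq_iff_eq_mul] at this
  exact this

theorem ind {p : GraphProduct Γ A → Prop} (g : GraphProduct Γ A) (h1 : p 1)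
    (h2 : ∀ g v a, p g → p (g * inc Γ A v a)) : p g := by
  have key : ∀ x : Monoid.CoprodI A, ∀ g, p g → p (g * QuotientGroup.mk' _ x) := by
    intro x
    induction x using Monoid.CoprodI.induction_left with
    | one => intro g hg; simpa using hg
    | mul a x ih =>
      intro g hg
      rw [map_mul, ← mul_assoc]
      exact ih _ (h2 g _ a hg)
  obtain ⟨x, rfl⟩ := QuotientGroup.mk'_surjective _ g
  simpa using key x 1 h1

/-- The universal property. -/
noncomputable def lift {K : Type} [Group K] (f : ∀ v, A v →* K)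
    (h : ∀ u v, Γ.Adj u v → ∀ a b, f u a * f v b = f v b * f u a) : GraphProduct Γ A →* K :=
  QuotientGroup.lift _ (Monoid.CoprodI.lift f) (by
    refine Subgroup.normalClosure_le_normal ?_
    rintro _ ⟨u, v, huv, a, b, rfl⟩
    simp only [SetLike.mem_coe, MonoidHom.mem_ker, map_mul, map_inv, Monoid.CoprodI.lift_of]
    rw [h u v huv]
    group)

theorem lift_inc {K : Type} [Group K] (f : ∀ v, A v →* K)
    (h : ∀ u v, Γ.Adj u v → ∀ a b, f u a * f v b = f v b * f u a) (v : V) (a : A v) :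
    lift f h (inc Γ A v a) = f v a := by
  simp [lift, inc]

variable (Γ A)

/-- The right-angled Coxeter group on the letters. -/
def R : RG (Σ v, A v) where
  adj x y := Γ.Adj x.1 y.1
  symm _ _ h := h.symm
  irrefl _ := Γ.irrefl

variable {Γ A}

theorem hΓ (γ : ∀ v, A v) (a b : Σ v, A v) (h : (R Γ A).adj a b) :
    (R Γ A).adj (⟨a.1, γ a.1 * a.2⟩ : Σ v, A v) ⟨b.1, γ b.1 * b.2⟩ := h

/-- The product of the vertex groups permutes the letters. -/
@[reducible] def act : MulAction (∀ v, A v) (Σ v, A v) where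
  smul γ x := ⟨x.1, γ x.1 * x.2⟩
  one_smul x := by
    show (⟨x.1, (1 : ∀ v, A v) x.1 * x.2⟩ : Σ v, A v) = x
    simp
  mul_smul γ δ x := by
    show (⟨x.1, (γ * δ) x.1 * x.2⟩ : Σ v, A v) = ⟨x.1, γ x.1 * (δ x.1 * x.2)⟩
    simp [mul_assoc]

variable (Γ A)

/-- The induced automorphisms. -/
noncomputable def α : (∀ v, A v) →* MulAut (R Γ A).W := @RG.aut _ (R Γ A) _ _ act hΓ

/-- A generator. -/
noncomputable def s (v : V) (a : A v) : (R Γ A).W := (R Γ A).s ⟨v, a⟩

variable {Γ A}

theorem α_s (γ : ∀ v, A v) (v : V) (a : A v) : α Γ A γ (s Γ A v a) = s Γ A v (γ v * a) :=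
  @RG.aut_s _ (R Γ A) _ _ act hΓ γ ⟨v, a⟩

theorem N_α (γ : ∀ v, A v) (w r : (R Γ A).W) :
    (R Γ A).N (α Γ A γ w) (α Γ A γ r) = (R Γ A).N w r :=
  @RG.N_aut _ (R Γ A) _ _ act hΓ γ w r

theorem s_s (v : V) (a : A v) : s Γ A v a * s Γ A v a = 1 := (R Γ A).s_s _

theorem s_inv (v : V) (a : A v) : (s Γ A v a)⁻¹ = s Γ A v a := (R Γ A).s_inv _

theorem s_comm {u v : V} (h : Γ.Adj u v) (a : A u) (b : A v) :
    s Γ A u a * s Γ A v b = s Γ A v b * s Γ A u a := (R Γ A).s_comm h

variable (Γ A)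

/-- The image of a vertex group. -/
noncomputable def phiV (v : V) : A v →* (R Γ A).W ⋊[α Γ A] (∀ v, A v) where
  toFun a := ⟨s Γ A v 1 * s Γ A v a, Pi.mulSingle v a⟩
  map_one' := by ext <;> simp [s_s]
  map_mul' a b := by
    ext1
    · simp only [SemidirectProduct.mul_left, map_mul, α_s, Pi.mulSingle_eq_same, mul_one]
      rw [mul_assoc, ← mul_assoc (s Γ A v a), s_s, one_mul]
    · simp [Pi.mulSingle_mul]

/-- The representation in the extended Coxeter group. -/
noncomputable def Φ : GraphProduct Γ A →* (R Γ A).W ⋊[α Γ A] (∀ v, A v) :=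
  lift (phiV Γ A) fun u v h a b => by
    have hne := h.ne
    ext1
    · simp only [phiV, MonoidHom.coe_mk, OneHom.coe_mk, SemidirectProduct.mul_left, map_mul, α_s,
        Pi.mulSingle_eq_of_ne hne, Pi.mulSingle_eq_of_ne hne.symm, mul_one, one_mul]
      have c : ∀ a b, Commute (s Γ A u a) (s Γ A v b) := s_comm h
      exact (((c _ _).mul_right (c _ _)).mul_left ((c _ _).mul_right (c _ _))).eq
    · exact (Pi.mulSingle_commute hne a b).eq

variable {Γ A}

/-- The orbit map. -/
noncomputable def c (g : GraphProduct Γ A) : (R Γ A).W := (Φ Γ A g).left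

/-- The map to the direct product. -/
noncomputable def π : GraphProduct Γ A →* ∀ v, A v := SemidirectProduct.rightHom.comp (Φ Γ A)

theorem c_one : c (1 : GraphProduct Γ A) = 1 := by simp [c]

theorem c_mul (g h : GraphProduct Γ A) : c (g * h) = c g * α Γ A (π g) (c h) := by
  simp [c, π]

theorem π_inc (v : V) (a : A v) : π (inc Γ A v a) = Pi.mulSingle v a := by
  simp [π, Φ, lift_inc, phiV]

theorem c_inc (v : V) (a : A v) : c (inc Γ A v a) = s Γ A v 1 * s Γ A v a := by
  simp [c, Φ, lift_inc, phiV]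

theorem c_mul_inc (g : GraphProduct Γ A) (v : V) (a : A v) :
    c (g * inc Γ A v a) = c g * s Γ A v (π g v) * s Γ A v (π g v * a) := by
  rw [c_mul, c_inc, map_mul, α_s, α_s, mul_one, mul_assoc]

/-- One move of the state machine. -/
noncomputable def mv (i : Σ v, A v) (x : GraphProduct Γ A × Finset V) :
    GraphProduct Γ A × Finset V :=
  if i.1 ∈ x.2 then (x.1 * inc Γ A i.1 i.2, x.2.erase i.1)
  else (x.1 * inc Γ A i.1 i.2⁻¹, insert i.1 x.2)

theorem mv_invol (i : Σ v, A v) : Function.Involutive (mv (Γ := Γ) i) := by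
  rintro ⟨g, O⟩
  by_cases h : i.1 ∈ O
  · simp [mv, h, Finset.insert_erase h]
  · simp [mv, h, Finset.erase_insert h]

theorem mv_comm {i j : Σ v, A v} (h : Γ.Adj i.1 j.1) (x : GraphProduct Γ A × Finset V) :
    mv i (mv j x) = mv j (mv i x) := by
  obtain ⟨g, O⟩ := x
  have hne := h.ne
  by_cases h1 : i.1 ∈ O <;> by_cases h2 : j.1 ∈ O <;>
    simp only [mv, h1, h2, hne, hne.symm, if_true, if_false, Finset.mem_erase, Finset.mem_insert,
      ne_eq, not_false_eq_true, and_self, and_false, or_true, or_self, Prod.mk.injEq, mul_assoc,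
      inc_comm h, true_and]
  · exact Finset.erase_right_comm
  · exact Finset.erase_insert_of_ne hne.symm
  · exact (Finset.erase_insert_of_ne hne).symm
  · exact Finset.insert_comm _ _ _

/-- The moves define an action of the Coxeter group. -/
noncomputable def ψ : (R Γ A).W →* Equiv.Perm (GraphProduct Γ A × Finset V) :=
  (R Γ A).lift (fun i => (mv_invol i).toPerm) (fun i => by ext1 x; exact mv_invol i x)
    (fun i j h => by ext1 x; exact mv_comm h x)

/-- The state after reading `w`. -/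
noncomputable def ρ (w : (R Γ A).W) : GraphProduct Γ A × Finset V := ψ w⁻¹ (1, ∅)

theorem ρ_one : ρ (1 : (R Γ A).W) = (1, ∅) := by simp [ρ]

theorem ρ_s (w : (R Γ A).W) (i : Σ v, A v) : ρ (w * (R Γ A).s i) = mv i (ρ w) := by
  rw [ρ, mul_inv_rev, (R Γ A).s_inv, map_mul, Equiv.Perm.mul_apply, ψ, RG.lift_s]
  rfl

theorem ρ_c (g : GraphProduct Γ A) : ρ (c g) = (g, ∅) := by
  induction g using ind with
  | h1 => rw [c_one, ρ_one]
  | h2 g v a ih =>
    rw [c_mul_inc, s, s, ρ_s, ρ_s, ih]
    simp [mv]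

theorem c_inj : Function.Injective (c : GraphProduct Γ A → _) := fun g h e => by
  have := ρ_c g
  rw [e, ρ_c] at this
  exact (Prod.mk.inj this).1.symm

end Pool.Agent.Lib.MP_7eef47_al.GP
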