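import Pool.Agent.Lib.MP_7eef47_al.GP.Walls
import Pool.Agent.Lib.MP_7eef47_al.C.Undist

set_option autoImplicit false
set_option linter.unusedSectionVars false

namespace Pool.Agent.Lib.MP_7eef47_al.GP

open Pool.Agent.Lib.MP_b03b3a_al Pool.Agent.Lib.MP_7eef47_al.U Classical

variable {V : Type} [Finite V] {Γ : SimpleGraph V} {A : V → Type} [∀ v, Group (A v)]
  [∀ v, Finite (A v)] {H : Subgroup (GraphProduct Γ A)}

/-- Generators adapted to the walls of `H`. -/
def Nice (T : Set H) (u : H) : Prop := Free H u ∨ ∃ g v a, Free H g ∧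
  (u : GraphProduct Γ A) = rot g v a ∧ ∀ b, ∃ t ∈ T, (t : GraphProduct Γ A) = rot g v b

theorem exists_nice (hfg : H.FG) : ∃ T : Set H, T.Finite ∧ Subgroup.closure T = ⊤ ∧
    ∀ u ∈ T, Nice T u := by
  have : Group.FG H := (Group.fg_iff_subgroup_fg H).2 hfg
  obtain ⟨T₀, hg, hTf, hT⟩ := C.exists_finite_gen (mem_closure_good (H := H))
  have key : ∀ u : H, ∃ E : Set H, u ∈ T₀ → E.Finite ∧ u ∈ E ∧ ∀ t ∈ E, Nice E t := by
    intro u
    by_cases hu : u ∈ T₀
    · rcases hg hu with h | ⟨g, v, a, h1, h2, h3⟩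
      · exact ⟨{u}, fun _ => ⟨Set.finite_singleton _, rfl, by rintro _ rfl; exact Or.inl h⟩⟩
      · refine ⟨Set.range fun b => ⟨rot g v b, h2 b⟩, fun _ => ⟨Set.finite_range _,
          ⟨a, Subtype.ext h3.symm⟩, ?_⟩⟩
        rintro _ ⟨b, rfl⟩
        exact Or.inr ⟨g, v, b, h1, rfl, fun b' => ⟨_, ⟨b', rfl⟩, rfl⟩⟩
    · exact ⟨∅, fun h => absurd h hu⟩
  choose E hE using key
  refine ⟨⋃ u ∈ T₀, E u, hTf.biUnion fun u hu => (hE u hu).1, ?_, fun t ht => ?_⟩
  · rw [eq_top_iff, ← hT]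
    exact Subgroup.closure_mono fun u hu => Set.mem_biUnion hu (hE u hu).2.1
  · obtain ⟨u, hu, ht⟩ := Set.mem_iUnion₂.1 ht
    rcases (hE u hu).2.2 t ht with h | ⟨g, v, a, h1, h2, h3⟩
    · exact Or.inl h
    · refine Or.inr ⟨g, v, a, h1, h2, fun b => ?_⟩
      obtain ⟨t', h4, h5⟩ := h3 b
      exact ⟨t', Set.mem_biUnion hu h4, h5⟩

theorem nice_all {T : Set H} (hg : ∀ u ∈ T, Nice T u) {u : H} (hu : u ∈ insert 1 (T ∪ T⁻¹)) :
    Nice T u := by
  rcases hu with rfl | h | h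
  · exact Or.inl fun _ _ => rfl
  · exact hg u h
  · rcases hg _ h with h' | ⟨g, v, a, h1, h2, h3⟩
    · refine Or.inl fun r hr => ?_
      have := h'.mul u.2 hr
      rw [Subgroup.coe_inv, mul_inv_cancel] at this
      exact this.symm
    · refine Or.inr ⟨g, v, a⁻¹, h1, ?_, h3⟩
      rw [← inv_inv (u : GraphProduct Γ A), ← Subgroup.coe_inv, h2]
      unfold rot
      rw [map_inv]
      group

theorem N_step {x u : GraphProduct Γ A} {r : (R Γ A).W} (h : Nc x r ≠ Nc (x * u) r) :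
    Nc 1 (actW x⁻¹ r) ≠ Nc u (actW x⁻¹ r) := fun e => h (by
  have := (N_act x 1 u _).2 e
  rwa [← actW_mul, mul_inv_cancel, actW_one, mul_one] at this)

theorem nice_cross {T : Set H} {u x : H} (hu : Nice T u) {r : (R Γ A).W} (hr : HW H r)
    (h : Nc (x : GraphProduct Γ A) r ≠ Nc ((x : GraphProduct Γ A) * (u : GraphProduct Γ A)) r) :
    ∃ g v, r = wl ((x : GraphProduct Γ A) * g) v ∧ (∃ a, (u : GraphProduct Γ A) = rot g v a) ∧
      ∀ b, ∃ t ∈ T, (t : GraphProduct Γ A) = rot g v b := by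
  have h1 := N_step h
  have hr' := hr.act (inv_mem x.2)
  have back : ∀ (g : GraphProduct Γ A) v, actW (x : GraphProduct Γ A)⁻¹ r = wl g v →
      r = wl ((x : GraphProduct Γ A) * g) v := fun g v e => by
    rw [← actW_wl, ← e, ← actW_mul, mul_inv_cancel, actW_one]
  rcases hu with h' | ⟨g, v, a, f1, f2, f3⟩
  · exact absurd (h' _ hr') h1
  · rw [f1 _ hr', f1.mul u.2 hr', f2,
      show rot g v a * g = g * inc Γ A v a by unfold rot; group] at h1
    rcases edge h1 with e | e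
    · exact ⟨g, v, back _ _ e, ⟨a, f2⟩, f3⟩
    · exact ⟨g * inc Γ A v a, v, back _ _ e, ⟨a, by rw [rot_inc, f2]; simp⟩,
        fun b => by rw [rot_inc]; exact f3 _⟩

/-- A geodesic of `H` crosses every wall only during a bounded time. -/
theorem window (hm : AlmostMalnormal H) {T : Set H} (hf : T.Finite)
    (hT : Subgroup.closure T = ⊤) (hg : ∀ u ∈ T, Nice T u) :
    ∃ n₀ : ℕ, ∀ (p : ℕ → H) (n : ℕ), (∀ k, (p k)⁻¹ * p (k + 1) ∈ insert 1 (T ∪ T⁻¹)) →
      (∀ i j, i ≤ j → j ≤ n → (SimpleGraph.mulCayley T).dist (p i) (p j) = j - i) →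
      ∀ r a b, a ≤ b → b < n →
        Nc (p a : GraphProduct Γ A) r ≠ Nc (p (a + 1) : GraphProduct Γ A) r →
        Nc (p b : GraphProduct Γ A) r ≠ Nc (p (b + 1) : GraphProduct Γ A) r → b ≤ a + n₀ := by
  have hf' : (insert 1 (T ∪ T⁻¹)).Finite := (hf.union hf.inv).insert 1
  have hΦ : (⋃ u ∈ insert 1 (T ∪ T⁻¹),
      {r | Nc 1 r ≠ Nc ((u : H) : GraphProduct Γ A) r}).Finite :=
    hf'.biUnion fun u _ => sep_finite _ _ _
  have hU : ∀ r r' : (R Γ A).W, (∃ g v, r = wl g v) → ¬ HW H r →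
      {u : H | actW (u : GraphProduct Γ A) r' = r}.Finite := by
    rintro _ r' ⟨g, v, rfl⟩ hr
    obtain ⟨a, ha⟩ : ∃ a, rot g v a ∉ H := not_forall.1 fun h => hr ⟨g, v, rfl, h⟩
    rcases Set.eq_empty_or_nonempty {u : H | actW (u : GraphProduct Γ A) r' = wl g v} with
      e | ⟨w, hw⟩
    · rw [e]; exact Set.finite_empty
    refine ((hm _ ha).preimage (f := fun u : H => ((u * w⁻¹ : H) : GraphProduct Γ A))
      fun a _ b _ e => by simpa using e).subset fun u hu => ⟨(u * w⁻¹).2, ?_⟩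
    have hu' : actW (u : GraphProduct Γ A) r' = wl g v := hu
    have hw' : actW (w : GraphProduct Γ A) r' = wl g v := hw
    have e1 : wl (((u * w⁻¹ : H) : GraphProduct Γ A) * g) v = wl g v := by
      rw [← actW_wl, ← hw', ← actW_mul, hw', ← hu']
      simp
    have e2 := wl_stab e1 a
    rw [rot_mul, mul_inv_eq_iff_eq_mul] at e2
    show (rot g v a)⁻¹ * ((u * w⁻¹ : H) : GraphProduct Γ A) * rot g v a ∈ H
    rw [mul_assoc, e2, inv_mul_cancel_left]
    exact (u * w⁻¹).2
  obtain ⟨n₀, hn₀⟩ := Tr.bdd (((hΦ.inter_of_left {r | ¬ HW H r}).prod hΦ).biUnion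
    fun x hx => hU x.1 x.2 (by
      obtain ⟨u, -, hu⟩ := Set.mem_iUnion₂.1 hx.1.1
      exact is_wl hu) hx.1.2) fun u => (SimpleGraph.mulCayley T).dist 1 u
  refine ⟨n₀, fun p n hs hd r a b hab hb ha' hb' => ?_⟩
  have st : ∀ k, (p (k + 1) : GraphProduct Γ A) = p k * ((p k)⁻¹ * p (k + 1) : H) := fun k => by
    simp
  by_cases hr : HW H r
  · rcases hab.eq_or_lt with e | e
    · omega
    obtain ⟨g, v, e1, ⟨a₁, e2⟩, -⟩ := nice_cross (nice_all hg (hs a)) hr (st a ▸ ha')
    obtain ⟨g', v', e3, ⟨a₂, e4⟩, e5⟩ := nice_cross (nice_all hg (hs b)) hr (st b ▸ hb')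
    obtain rfl := wl_type (e1.symm.trans e3)
    have e6 := wl_stab (e1.symm.trans e3) a₁
    rw [rot_mul, rot_mul, ← e2] at e6
    obtain ⟨t, ht, e7⟩ := e5 (a₁ * a₂)
    have e8 : p (b + 1) = p a * (p (a + 1))⁻¹ * p b * t := by
      apply Subtype.ext
      have f1 : rot g' v (a₁ * a₂) = rot g' v a₁ * rot g' v a₂ := by
        unfold rot; rw [map_mul]; group
      have f2 : rot g' v a₁ = (p b : GraphProduct Γ A)⁻¹ *
          ((p (a + 1) : GraphProduct Γ A) * (p a : GraphProduct Γ A)⁻¹) * p b := by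
        calc rot g' v a₁ = (p b : GraphProduct Γ A)⁻¹ * ((p b : GraphProduct Γ A) * rot g' v a₁ *
              (p b : GraphProduct Γ A)⁻¹) * p b := by group
          _ = _ := by rw [← e6]; simp
      simp only [Subgroup.coe_mul, Subgroup.coe_inv] at e4 ⊢
      rw [e7, f1, f2, ← e4]
      group
    have a1 := hd a (b + 1) (by omega) (by omega)
    have a2 := hd (a + 1) b (by omega) (by omega)
    rw [← Tr.dist_mul hT (p a * (p (a + 1))⁻¹), inv_mul_cancel_right] at a2
    have a3 : (SimpleGraph.mulCayley T).dist (p a) (p (b + 1)) ≤ _ + _ :=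
      (Tr.conn hT).dist_triangle (v := p a * (p (a + 1))⁻¹ * p b)
    have a4 : (SimpleGraph.mulCayley T).dist (p a * (p (a + 1))⁻¹ * p b) (p (b + 1)) ≤ 1 := by
      rw [e8]
      by_cases h : p a * (p (a + 1))⁻¹ * p b = p a * (p (a + 1))⁻¹ * p b * t
      · rw [← h]; simp
      · exact (SimpleGraph.dist_eq_one_iff_adj.2
          ((SimpleGraph.mulCayley_adj' T _ _).2 ⟨h, t, ht, Or.inl rfl⟩)).le
    omega
  · have mem : ∀ k, Nc (p k : GraphProduct Γ A) r ≠ Nc (p (k + 1) : GraphProduct Γ A) r →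
        actW (p k : GraphProduct Γ A)⁻¹ r ∈ ⋃ u ∈ insert 1 (T ∪ T⁻¹),
          {r | Nc 1 r ≠ Nc ((u : H) : GraphProduct Γ A) r} := fun k hk =>
      Set.mem_biUnion (hs k) (N_step (st k ▸ hk))
    have := hn₀ ((p a)⁻¹ * p b) (Set.mem_biUnion
      (x := (actW (p a : GraphProduct Γ A)⁻¹ r, actW (p b : GraphProduct Γ A)⁻¹ r))
      ⟨⟨mem a ha', fun h => hr (by
      have := HW.act (r := actW (p a : GraphProduct Γ A)⁻¹ r) h (p a).2
      rwa [← actW_mul, mul_inv_cancel, actW_one] at this)⟩, mem b hb'⟩ (by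
        show actW _ (actW _ r) = _
        rw [← actW_mul]
        simp))
    rw [← Tr.dist_mul hT (p a), mul_one, mul_inv_cancel_left, hd a b hab hb.le] at this
    omega

theorem len_add_le (x y z : (R Γ A).W) : d (R Γ A) x y + d (R Γ A) y z ≤
    d (R Γ A) x z + 2 * (sep (R Γ A) x y ∩ sep (R Γ A) y z).card := by
  rw [← card_sep, ← card_sep, ← card_sep]
  have h1 := Finset.card_union_add_card_inter (sep (R Γ A) x y) (sep (R Γ A) y z)
  have h2 : sep (R Γ A) x y ∪ sep (R Γ A) y z ⊆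
      sep (R Γ A) x z ∪ (sep (R Γ A) x y ∩ sep (R Γ A) y z) := by
    intro r
    simp only [Finset.mem_union, Finset.mem_inter, mem_sep]
    cases (R Γ A).N x r <;> cases (R Γ A).N y r <;> cases (R Γ A).N z r <;> simp
  have h3 := (Finset.card_le_card h2).trans (Finset.card_union_le _ _)
  omega

theorem lip_c {G : Type} [Group G] {S : Set G} (hf : S.Finite) (hS : Subgroup.closure S = ⊤)
    (f : G →* GraphProduct Γ A) : ∃ B, ∀ x y,
      d (R Γ A) (c (f x)) (c (f y)) ≤ B * (SimpleGraph.mulCayley S).dist x y := by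
  obtain ⟨B, hB⟩ := Tr.bdd hf fun s => d (R Γ A) (c 1) (c (f s))
  refine ⟨B, Tr.lip hS (d (R Γ A)) (d_self _) (d_comm _) (d_tri _) (fun x => c (f x)) B
    fun x s hs => ?_⟩
  have := hB s hs
  rwa [← d_c_mul (f x), mul_one, ← map_mul] at this

/-- Finitely generated almost malnormal subgroups of graph products of finite groups are
undistorted. -/
theorem undistorted {S : Set (GraphProduct Γ A)} (hf : S.Finite) (hS : Subgroup.closure S = ⊤)
    (hfg : H.FG) (hm : AlmostMalnormal H) : Undistorted S H := by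
  obtain ⟨T, hTf, hT, hg⟩ := exists_nice hfg
  obtain ⟨n₀, hn₀⟩ := window hm hTf hT hg
  obtain ⟨K, hK⟩ := lip_c hTf hT H.subtype
  obtain ⟨B, hB⟩ := lip_c hf hS (MonoidHom.id _)
  obtain ⟨L, hL⟩ := Tr.bdd ((ball_finite (R Γ A) (2 * (K * n₀))).preimage
    (f := fun u : H => c (u : GraphProduct Γ A)) (c_inj.comp Subtype.val_injective).injOn)
    fun u => (SimpleGraph.mulCayley T).dist 1 u
  have main : ∀ x y : H, (SimpleGraph.mulCayley T).dist x y ≤
      (L + 1) * (d (R Γ A) (c (x : GraphProduct Γ A)) (c (y : GraphProduct Γ A)) +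
        2 * (K * n₀) + 1) := by
    intro x y
    obtain ⟨p, p0, p1, ps, pd⟩ := C.geod_eq hT x y
    generalize (SimpleGraph.mulCayley T).dist x y = n at p1 pd
    set q : ℕ → (R Γ A).W := fun k => c (p k : GraphProduct Γ A) with hq
    have add : ∀ s t, s ≤ t → t ≤ n → d (R Γ A) (q 0) (q s) + d (R Γ A) (q s) (q t) ≤
        d (R Γ A) (q 0) (q t) + 2 * (K * n₀) := by
      intro s t hst ht
      have a1 := len_add_le (q 0) (q s) (q t)
      have a2 : sep (R Γ A) (q 0) (q s) ∩ sep (R Γ A) (q s) (q t) ⊆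
          sep (R Γ A) (q (s - n₀)) (q s) := by
        intro r hr
        simp only [Finset.mem_inter, mem_sep] at hr ⊢
        obtain ⟨b, b1, b2, b3⟩ := C.exists_switch (fun k => (R Γ A).N (q k) r) hst hr.2
        intro e
        obtain ⟨a, -, a2, a3⟩ := C.exists_switch (fun k => (R Γ A).N (q k) r)
          (Nat.zero_le (s - n₀)) (fun e' => hr.1 (e'.trans e))
        have := hn₀ p n ps pd r a b (by omega) (by omega) a3 b3
        omega
      have a3 := Finset.card_le_card a2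
      have a4 : d (R Γ A) (q (s - n₀)) (q s) ≤ _ := hK (p (s - n₀)) (p s)
      rw [card_sep] at a3
      rw [pd _ _ (by omega) (by omega)] at a4
      have a5 : K * (s - (s - n₀)) ≤ K * n₀ := Nat.mul_le_mul_left K (by omega)
      omega
    have grow : ∀ a, (L + 1) * a ≤ n → a ≤ d (R Γ A) (q 0) (q ((L + 1) * a)) := by
      intro a
      induction a with
      | zero => simp
      | succ a ih =>
        intro h
        rw [mul_add, mul_one] at h ⊢
        have a1 := ih (by omega)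
        have a2 := add ((L + 1) * a) ((L + 1) * a + (L + 1)) (by omega) h
        have a3 : ¬ d (R Γ A) (q ((L + 1) * a)) (q ((L + 1) * a + (L + 1))) ≤
            2 * (K * n₀) := fun h' => by
          have := hL ((p ((L + 1) * a))⁻¹ * p ((L + 1) * a + (L + 1))) (by
            show d (R Γ A) 1 _ ≤ _
            rw [← c_one, ← d_c_mul (p ((L + 1) * a) : GraphProduct Γ A)]
            simpa using h')
          rw [← Tr.dist_mul hT (p ((L + 1) * a)), mul_one, mul_inv_cancel_left,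
            pd _ _ (by omega) h] at this
          omega
        omega
    have b1 := Nat.mul_div_le n (L + 1)
    have b2 := grow _ b1
    have b3 := add _ n b1 le_rfl
    have b4 := Nat.lt_mul_div_succ n (show 0 < L + 1 by omega)
    have b5 : d (R Γ A) (q 0) (q n) =
        d (R Γ A) (c (x : GraphProduct Γ A)) (c (y : GraphProduct Γ A)) := by
      simp only [hq, p0, p1]
    exact b4.le.trans (Nat.mul_le_mul_left _ (by omega))
  refine ⟨T, ((L + 1) * (B + 2 * (K * n₀) + 1) : ℕ), hTf, hT, fun x y => ?_⟩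
  have c1 := main x y
  have c2 := hB x y
  simp only [MonoidHom.id_apply] at c2
  unfold wordDist
  generalize (SimpleGraph.mulCayley S).dist (x : GraphProduct Γ A) y = D at c2 ⊢
  have c3 : (L + 1) * (d (R Γ A) (c (x : GraphProduct Γ A)) (c (y : GraphProduct Γ A)) +
      2 * (K * n₀) + 1) ≤ (L + 1) * ((B + 2 * (K * n₀) + 1) * D + (B + 2 * (K * n₀) + 1)) :=
    Nat.mul_le_mul_left _ (by nlinarith [Nat.zero_le ((2 * (K * n₀) + 1) * D)])
  rw [mul_add (L + 1) (_ * D), ← mul_assoc (L + 1)] at c3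
  exact_mod_cast c1.trans c3

end Pool.Agent.Lib.MP_7eef47_al.GP
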