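import Pool.Agent.Lib.MP_7eef47_al.GP.Cvx

set_option autoImplicit false
set_option linter.unusedSectionVars false

namespace Pool.Agent.Lib.MP_7eef47_al.GP

open Pool.Agent.Lib.MP_b03b3a_al Pool.Agent.Lib.MP_7eef47_al.U Classical

variable {V : Type} [Finite V] {Γ : SimpleGraph V} {A : V → Type} [∀ v, Group (A v)]
  [∀ v, Finite (A v)]

/-- The side function on the graph product. -/
noncomputable def Nc (g : GraphProduct Γ A) (r : (R Γ A).W) : Bool := (R Γ A).N (c g) r

/-- The action on walls. -/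
noncomputable def actW (g : GraphProduct Γ A) (r : (R Γ A).W) : (R Γ A).W :=
  c g * α Γ A (π g) r * (c g)⁻¹

/-- The wall of type `v` next to `g`. -/
noncomputable def wl (g : GraphProduct Γ A) (v : V) : (R Γ A).W :=
  c g * s Γ A v (π g v) * (c g)⁻¹

/-- A rotation. -/
def rot (g : GraphProduct Γ A) (v : V) (a : A v) : GraphProduct Γ A := g * inc Γ A v a * g⁻¹

theorem actW_mul (g h : GraphProduct Γ A) (r : (R Γ A).W) :
    actW (g * h) r = actW g (actW h r) := by
  simp only [actW, c_mul, map_mul, map_inv, MulAut.mul_apply]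
  group

theorem actW_one (r : (R Γ A).W) : actW (1 : GraphProduct Γ A) r = r := by
  simp [actW, c_one]

theorem actW_wl (g x : GraphProduct Γ A) (v : V) : actW g (wl x v) = wl (g * x) v := by
  simp only [actW, wl, c_mul, map_mul, map_inv, α_s, Pi.mul_apply]
  group

theorem N_act (g x y : GraphProduct Γ A) (r : (R Γ A).W) :
    Nc (g * x) (actW g r) = Nc (g * y) (actW g r) ↔ Nc x r = Nc y r := by
  simp only [Nc, actW, c_mul]
  rw [N_conj, N_α, N_α]

theorem edge {x : GraphProduct Γ A} {v : V} {a : A v} {r : (R Γ A).W}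
    (h : Nc x r ≠ Nc (x * inc Γ A v a) r) : r = wl x v ∨ r = wl (x * inc Γ A v a) v := by
  by_contra hn
  rw [not_or] at hn
  apply h
  unfold Nc
  rw [c_mul_inc, s, s, N_step_ne, N_step_ne _ _ _ hn.1]
  intro e
  apply hn.2
  rw [e, wl, c_mul_inc, map_mul, π_inc, Pi.mul_apply, Pi.mulSingle_eq_same,
    mul_assoc _ (s Γ A v (π x v * a)) (s Γ A v (π x v * a)), s_s, mul_inv_rev _ (s Γ A v _),
    s_inv, mul_one, ← mul_assoc]
  rfl

theorem is_wl {g : GraphProduct Γ A} {r : (R Γ A).W} (h : Nc 1 r ≠ Nc g r) :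
    ∃ x v, r = wl x v := by
  induction g using ind with
  | h1 => exact absurd rfl h
  | h2 g v a ih =>
    by_cases e : Nc 1 r = Nc g r
    · rcases edge (e ▸ h) with h' | h'
      exacts [⟨_, _, h'⟩, ⟨_, _, h'⟩]
    · exact ih e

theorem wl_type {g g' : GraphProduct Γ A} {v v' : V} (h : wl g v = wl g' v') : v = v' :=
  congrArg Sigma.fst ((R Γ A).conj_inj h)

theorem par_lk {v : V} {w : (R Γ A).W} (h : w * s Γ A v 1 * w⁻¹ = s Γ A v 1)
    (hN : (R Γ A).N w (s Γ A v 1) = (R Γ A).N 1 (s Γ A v 1)) :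
    w ∈ Par (R Γ A) {i | Γ.Adj v i.1} := by
  have := (mem_par_iff (R Γ A) (L := {i | Γ.Adj v i.1}) (x := 1) (y := w)).2 fun r hr => by
    obtain ⟨j, hj⟩ := ty_of_sep _ hr
    have hne : r ≠ s Γ A v 1 := by rintro rfl; exact hr hN.symm
    have e1 := N_step_eq (R Γ A) 1 ⟨v, 1⟩
    have e2 := N_step_eq (R Γ A) w ⟨v, 1⟩
    have e3 := N_step_ne (R Γ A) 1 ⟨v, 1⟩ (r := r) (by simpa [s] using hne)
    have e4 := N_step_ne (R Γ A) w ⟨v, 1⟩ (r := r) (by rw [← h] at hne; exact hne)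
    have h' : w * (R Γ A).s ⟨v, 1⟩ * w⁻¹ = s Γ A v 1 := h
    have h'' : 1 * (R Γ A).s ⟨v, 1⟩ * 1⁻¹ = s Γ A v 1 := by simp [s]
    rw [h'] at e2
    rw [h''] at e1
    exact ⟨j, cross_adj (R Γ A) (c := 1) (a := 1 * (R Γ A).s ⟨v, 1⟩) (b := w)
      (e := w * (R Γ A).s ⟨v, 1⟩) (r := s Γ A v 1) (r' := r) (i := ⟨v, 1⟩) hN
      (by rw [e1, e2, hN]) (by rw [e1]; simp) e3 e4 hr ⟨1, h''.symm⟩ hj, hj⟩
  simpa using this

theorem par_act {v : V} {w : (R Γ A).W} (h : w ∈ Par (R Γ A) {i | Γ.Adj v i.1}) :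
    ∀ x, (v ∈ (ψ w x).2 ↔ v ∈ x.2) ∧
      ∃ k, (∀ a, Commute k (inc Γ A v a)) ∧ (ψ w x).1 = x.1 * k := by
  induction h using Subgroup.closure_induction with
  | mem w hw =>
    obtain ⟨i, hi, rfl⟩ := hw
    intro x
    have e : ψ ((R Γ A).s i) x = mv i x := by rw [ψ, RG.lift_s]; rfl
    have adj : Γ.Adj v i.1 := hi
    rw [e]
    refine ⟨mem_mv_ne adj.ne, ?_⟩
    unfold mv
    split_ifs
    · exact ⟨_, fun a => (inc_comm adj a _).symm, rfl⟩
    · exact ⟨_, fun a => (inc_comm adj a _).symm, rfl⟩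
  | one => intro x; exact ⟨by simp, 1, fun a => Commute.one_left _, by simp⟩
  | mul a b _ _ ha hb =>
    intro x
    obtain ⟨a1, k, a2, a3⟩ := ha (ψ b x)
    obtain ⟨b1, l, b2, b3⟩ := hb x
    rw [map_mul, Equiv.Perm.mul_apply]
    exact ⟨a1.trans b1, l * k, fun a => (b2 a).mul_left (a2 a), by rw [a3, b3, mul_assoc]⟩
  | inv a _ ha =>
    intro x
    obtain ⟨a1, k, a2, a3⟩ := ha (ψ a⁻¹ x)
    rw [← Equiv.Perm.mul_apply, ← map_mul, mul_inv_cancel, map_one, Equiv.Perm.one_apply] at a1 a3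
    exact ⟨a1.symm, k⁻¹, fun a => (a2 a).inv_left, by rw [a3, mul_inv_cancel_right]⟩

theorem wl_stab {g g' : GraphProduct Γ A} {v : V} (h : wl g v = wl g' v) (a : A v) :
    rot g v a = rot g' v a := by
  have h1 := congrArg (actW g⁻¹) h
  rw [actW_wl, actW_wl, inv_mul_cancel] at h1
  have goal : Commute (g⁻¹ * g') (inc Γ A v a) → rot g v a = rot g' v a := fun hc => by
    calc rot g v a = g * (inc Γ A v a * (g⁻¹ * g')) * g'⁻¹ := by unfold rot; group
      _ = rot g' v a := by rw [← hc.eq]; unfold rot; group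
  apply goal
  generalize g⁻¹ * g' = k at h1
  have h2 : (1 : A v) = π k v := by
    have := (R Γ A).conj_inj h1
    simpa using this
  have h3 : c k * s Γ A v 1 * (c k)⁻¹ = s Γ A v 1 := by
    rw [wl, wl, ← h2, c_one] at h1
    simpa using h1.symm
  by_cases hN : (R Γ A).N (c k) (s Γ A v 1) = (R Γ A).N 1 (s Γ A v 1)
  · obtain ⟨-, l, l1, l2⟩ := par_act ((Par _ _).inv_mem (par_lk h3 hN)) (1, ∅)
    have : (ρ (c k)).1 = 1 * l := l2
    rw [ρ_c, one_mul] at this
    exact (show k = l from this) ▸ l1 a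
  · exfalso
    have e2 := N_step_eq (R Γ A) (c k) ⟨v, 1⟩
    have h' : c k * (R Γ A).s ⟨v, 1⟩ * (c k)⁻¹ = s Γ A v 1 := h3
    rw [h'] at e2
    have hp := par_lk (w := c k * s Γ A v 1)
      (by rw [mul_assoc (c k), s_s, mul_one, mul_inv_rev, s_inv, ← mul_assoc, h3])
      (by
        refine e2.trans ?_
        revert hN
        cases (R Γ A).N (c k) (s Γ A v 1) <;> cases (R Γ A).N 1 (s Γ A v 1) <;> simp)
    have : v ∈ (ρ (c k * (R Γ A).s ⟨v, 1⟩)).2 ↔ _ := (par_act ((Par _ _).inv_mem hp) (1, ∅)).1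
    rw [ρ_s, ρ_c, mem_mv_self (i := ⟨v, 1⟩)] at this
    simp at this

theorem rot_mul (h g : GraphProduct Γ A) (v : V) (a : A v) :
    rot (h * g) v a = h * rot g v a * h⁻¹ := by
  unfold rot; group

theorem rot_inc (g : GraphProduct Γ A) (v : V) (a b : A v) :
    rot (g * inc Γ A v a) v b = rot g v (a * b * a⁻¹) := by
  unfold rot
  simp only [map_mul, map_inv]
  group

variable (H : Subgroup (GraphProduct Γ A))

/-- Walls whose rotations lie in `H`. -/
def HW (r : (R Γ A).W) : Prop := ∃ g v, r = wl g v ∧ ∀ a, rot g v a ∈ H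

/-- No such wall separates `x` from the identity. -/
def Free (x : GraphProduct Γ A) : Prop := ∀ r, HW H r → Nc 1 r = Nc x r

variable {H}

theorem HW.act {r : (R Γ A).W} (hr : HW H r) {h : GraphProduct Γ A} (hh : h ∈ H) :
    HW H (actW h r) := by
  obtain ⟨g, v, rfl, hg⟩ := hr
  exact ⟨h * g, v, actW_wl _ _ _, fun a => by
    rw [rot_mul]; exact mul_mem (mul_mem hh (hg a)) (inv_mem hh)⟩

theorem Free.mul {x h : GraphProduct Γ A} (hx : Free H x) (hh : h ∈ H) {r : (R Γ A).W}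
    (hr : HW H r) : Nc h r = Nc (h * x) r := by
  have := (N_act h 1 x _).2 (hx _ (hr.act (inv_mem hh)))
  rwa [← actW_mul, mul_inv_cancel, actW_one, mul_one] at this

theorem HW.rot_mem {x : GraphProduct Γ A} {v : V} (hr : HW H (wl x v)) (b : A v) :
    rot x v b ∈ H := by
  obtain ⟨g, v', e, hg⟩ := hr
  obtain rfl := wl_type e
  rw [wl_stab e]
  exact hg b

theorem mem_closure_good (u : H) : u ∈ Subgroup.closure {u : H | Free H u ∨
    ∃ g v a, Free H g ∧ (∀ b, rot g v b ∈ H) ∧ (u : GraphProduct Γ A) = rot g v a} := by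
  generalize hn : d (R Γ A) (c 1) (c (u : GraphProduct Γ A)) = n
  induction n using Nat.strong_induction_on generalizing u with
  | _ n ih =>
    by_cases hf : Free H u
    · exact Subgroup.subset_closure (Or.inl hf)
    have key : ∀ (m : ℕ) (x : GraphProduct Γ A), d (R Γ A) (c x) (c (u : GraphProduct Γ A)) = m →
        Free H x → d (R Γ A) (c 1) (c x) + m ≤ n → ∃ x v a, Free H x ∧ (∀ b, rot x v b ∈ H) ∧
        d (R Γ A) (c 1) (c x) + d (R Γ A) (c (x * inc Γ A v a)) (c (u : GraphProduct Γ A)) < n := by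
      intro m
      induction m using Nat.strong_induction_on with
      | _ m ihm =>
        intro x hx fx hle
        have hne : c x ≠ c (u : GraphProduct Γ A) := fun e => hf (c_inj e ▸ fx)
        obtain ⟨v, a, h⟩ := step (c_mem _) (by rw [ρ_c]) hne
        by_cases hf' : Free H (x * inc Γ A v a)
        · refine ihm _ (by omega) _ rfl hf' ?_
          have a1 := d_tri (R Γ A) (c 1) (c x) (c (x * inc Γ A v a))
          have a2 := d_tri (R Γ A) (c x) (c x * s Γ A v (π x v)) (c (x * inc Γ A v a))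
          have a3 := d_step (R Γ A) (c x) ⟨v, π x v⟩
          have a4 := d_step (R Γ A) (c x * s Γ A v (π x v)) ⟨v, π x v * a⟩
          rw [c_mul_inc] at a1 a2 h ⊢
          unfold s at *
          omega
        · refine ⟨x, v, a, fx, ?_, by omega⟩
          simp only [Free, not_forall] at hf'
          obtain ⟨r, hr, h'⟩ := hf'
          rw [fx r hr] at h'
          rcases edge h' with rfl | rfl
          · exact hr.rot_mem
          · intro b
            have := hr.rot_mem (a⁻¹ * b * a)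
            rw [rot_inc] at this
            simpa [mul_assoc] using this
    obtain ⟨x, v, a, fx, hx, hlt⟩ := key _ 1 rfl (fun _ _ => rfl) (by rw [d_self]; omega)
    have e : u = ⟨rot x v a, hx a⟩ * ((⟨rot x v a, hx a⟩ : H)⁻¹ * u) := by group
    rw [e]
    refine mul_mem (Subgroup.subset_closure (Or.inr ⟨x, v, a, fx, hx, rfl⟩)) (ih _ ?_ _ rfl)
    have a1 := d_tri (R Γ A) (c 1) (c x) (c ((rot x v a)⁻¹ * u))
    have a2 := d_c_mul (rot x v a) x ((rot x v a)⁻¹ * u)
    rw [mul_inv_cancel_left, show rot x v a * x = x * inc Γ A v a by unfold rot; group] at a2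
    show d (R Γ A) (c 1) (c ((rot x v a)⁻¹ * u)) < n
    omega

end Pool.Agent.Lib.MP_7eef47_al.GP
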